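import Pool.Agent.H78.XQ.HWT
import Pool.Agent.H48.OQ.FMG
import Pool.Agent.H78.OX.Targets

/-!
# HW2: a formula on strings of given weight, both inequalities
-/

set_option autoImplicit false

namespace Pool.Agent.H42.OX.HW2

open Finset Pool.Agent.H6.NB Pool.Agent.H70.OQ Pool.Agent.H70.EH Pool.Agent.H70.EI
open Pool.Agent.H78.XQ Pool.Agent.H78.XQ.HWT Pool.Agent.H78.OX
open Pool.Agent.H68.AC (PA Wt fd Ext ind)

theorem core (hHOE : T_HOE) (hTRE : T_TRE) (hEXC : T_EXC) (V : Type) [Fintype V] [DecidableEq V]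
    [Nonempty V] (S d w W : ℕ) (δ : ℝ) (f : (V → Bool) → Bool) (hw : 1 ≤ w) (hδ : 0 ≤ δ)
    (hf : ∃ Bad : (Fin (d + 1) → PA V) → Prop,
      (∑ R, Wt (1 / (128 * (w : ℝ))) (1 / 2) R * ind (Bad R) ≤ ((S : ℝ) + 1) ^ (d + 1) / 2 ^ w) ∧
      ∀ R, ¬ Bad R → ∃ t : Pool.Agent.H68.AC.DT V, t.depth ≤ w ∧
        ∀ y, Ext (fd R (d + 1)) y → f y = t.eval y)
    (hW : |(W : ℝ) - Fintype.card V / 2| ≤ δ * Fintype.card V) :
    (1 - (12 * w * δ + 4 * w ^ 2 / Fintype.card V) * (128 * (w : ℝ)) ^ (d + 1)) *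
        mn (fun y => bi (f y)) -
      (((S : ℝ) + 1) ^ (d + 1) / 2 ^ w + 4 * Real.exp (-(Fintype.card V * δ ^ 2 / 4))) ≤
    wm (fun _ => none) W fun y => bi (f y) := by
  obtain ⟨Bad, hBad, hGood⟩ := hf
  have hwr : (1 : ℝ) ≤ w := by exact_mod_cast hw
  have hM : (0 : ℝ) < Fintype.card V := by exact_mod_cast Fintype.card_pos
  obtain ⟨M, hMe⟩ : ∃ M : ℝ, M = Fintype.card V := ⟨_, rfl⟩
  obtain ⟨q, hq⟩ : ∃ q : ℝ, q = 1 / (128 * (w : ℝ)) := ⟨_, rfl⟩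
  obtain ⟨L, hL⟩ : ∃ L : ℝ, L = (128 * (w : ℝ)) ^ (d + 1) := ⟨_, rfl⟩
  have hq0 : 0 < q := by rw [hq]; positivity
  have hq1 : q ≤ 1 := by
    rw [hq, div_le_one (by positivity)]
    linarith
  have hL1 : 1 ≤ L := by
    rw [hL]
    exact one_le_pow₀ (by linarith)
  have hLp : L * q ^ (d + 1) = 1 := by
    rw [hL, ← mul_pow, hq]
    have : 128 * (w : ℝ) * (1 / (128 * w)) = 1 := by field_simp
    rw [this, one_pow]
  have hH := hHOE V (d + 1) q δ hq0 hq1 hδ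
  rw [← hq] at hBad
  rw [← hMe] at hW hM hH ⊢
  rw [← hL]
  obtain ⟨F, hF⟩ : ∃ F : (V → Bool) → ℝ, F = fun y => bi (f y) := ⟨_, rfl⟩
  have hF0 : ∀ y, 0 ≤ F y := fun y => by rw [hF]; exact (bi_01 _).1
  have hF1 : ∀ y, F y ≤ 1 := fun y => by rw [hF]; exact (bi_01 _).2
  have hmF := mn_01 F hF0 hF1
  have hwm := wm_nonneg (fun _ => none) W F hF0
  have hexp : 0 ≤ 4 * Real.exp (-(M * δ ^ 2 / 4)) := by positivity
  have hS0 : 0 ≤ ((S : ℝ) + 1) ^ (d + 1) / 2 ^ w := by positivity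
  rw [← hF]
  by_cases hε : 1 ≤ (12 * w * δ + 4 * w ^ 2 / M) * L
  · have : (1 - (12 * w * δ + 4 * w ^ 2 / M) * L) * mn F ≤ 0 :=
      mul_nonpos_of_nonpos_of_nonneg (by linarith) hmF.1
    linarith
  push Not at hε
  obtain ⟨p, hp⟩ : ∃ p : ℝ, p = q ^ (d + 1) := ⟨_, rfl⟩
  rw [← hp] at hLp hH
  have hp0 : 0 < p := by rw [hp]; positivity
  obtain ⟨η, hη⟩ : ∃ η : ℝ, η = (6 * δ + 2 * w / M) * L := ⟨_, rfl⟩
  have hη0 : 0 ≤ η := by rw [hη]; positivity
  have hεη : (12 * w * δ + 4 * w ^ 2 / M) * L = 2 * w * η := by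
    rw [hη]
    field_simp
    ring
  rw [hεη] at hε ⊢
  have hδp : δ ≤ p / 2 := by
    have h1 : 12 * w * δ * L ≤ 2 * w * η := by
      rw [← hεη]
      have : 0 ≤ 4 * (w : ℝ) ^ 2 / M := by positivity
      exact mul_le_mul_of_nonneg_right (by linarith) (by linarith)
    have h2 : 12 * δ * L ≤ 12 * w * δ * L := by
      have : 0 ≤ δ * L := mul_nonneg hδ (by linarith)
      nlinarith
    have h3 : δ * L ≤ 1 / 12 := by linarith
    have h4 : δ = δ * L * p := by rw [mul_assoc, hLp, mul_one]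
    rw [h4]
    have := mul_le_mul_of_nonneg_right h3 hp0.le
    linarith
  have hηM : η * (p * M / 2) = 3 * δ * M + w := by
    rw [hη]
    have h1 : (6 * δ + 2 * w / M) * L * (p * M / 2) = (6 * δ + 2 * w / M) * (M / 2) * (L * p) := by
      ring
    rw [h1, hLp]
    field_simp
    ring
  have hpt : ∀ R : Fin (d + 1) → PA V, (1 - 2 * w * η) * mn (rst (fd R (d + 1)) F) -
      (ind (Bad R) + ind (¬ (|(nv (fd R (d + 1)) none : ℝ) - p * M| ≤ δ * M ∧
        |(nv (fd R (d + 1)) (some true) : ℝ) - (1 - p) / 2 * M| ≤ δ * M))) ≤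
      wm (fd R (d + 1)) W F := by
    intro R
    have hr := mn_01 (rst (fd R (d + 1)) F) (fun y => hF0 _) (fun y => hF1 _)
    have hw0 := wm_nonneg (fd R (d + 1)) W F hF0
    have hη3 : 0 ≤ 2 * w * η := by positivity
    have hle : (1 - 2 * w * η) * mn (rst (fd R (d + 1)) F) ≤ 1 := by nlinarith [hr.1, hr.2]
    by_cases h1 : Bad R
    · have e1 : ind (Bad R) = 1 := by unfold ind; rw [if_pos h1]
      have e2 := ind_nonneg (¬ (|(nv (fd R (d + 1)) none : ℝ) - p * M| ≤ δ * M ∧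
        |(nv (fd R (d + 1)) (some true) : ℝ) - (1 - p) / 2 * M| ≤ δ * M))
      linarith
    by_cases h2 : |(nv (fd R (d + 1)) none : ℝ) - p * M| ≤ δ * M ∧
        |(nv (fd R (d + 1)) (some true) : ℝ) - (1 - p) / 2 * M| ≤ δ * M
    · have e1 := ind_nonneg (Bad R)
      have e2 := ind_nonneg (¬ (|(nv (fd R (d + 1)) none : ℝ) - p * M| ≤ δ * M ∧
        |(nv (fd R (d + 1)) (some true) : ℝ) - (1 - p) / 2 * M| ≤ δ * M))
      obtain ⟨t, ht, hft⟩ := hGood R h1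
      have h3 := good hTRE (fd R (d + 1)) W w f t ht hft M δ p η hp0 hη0 hδ hM hδp hηM hε hw hW
        h2.1 h2.2
      rw [← hF] at h3
      linarith
    · have e1 := ind_nonneg (Bad R)
      have e2 : ind (¬ (|(nv (fd R (d + 1)) none : ℝ) - p * M| ≤ δ * M ∧
        |(nv (fd R (d + 1)) (some true) : ℝ) - (1 - p) / 2 * M| ≤ δ * M)) = 1 := by
        unfold ind
        rw [if_pos h2]
      linarith
  have hW0 : ∀ R : Fin (d + 1) → PA V, 0 ≤ Wt q (1 / 2) R := fun R =>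
    Pool.Agent.H90.AC.Wt_nonneg hq0.le hq1 (by norm_num) (by norm_num) R
  have hsum := Finset.sum_le_sum fun (R : Fin (d + 1) → PA V) (_ : R ∈ univ) =>
    mul_le_mul_of_nonneg_left (hpt R) (hW0 R)
  have hE := hEXC V (d + 1) q W F hq0.le hq1 hF0
  have hmn := Pool.Agent.H70.EH.RL2.sum_mn (d + 1) q F
  have e : ∑ R : Fin (d + 1) → PA V, Wt q (1 / 2) R *
      ((1 - 2 * w * η) * mn (rst (fd R (d + 1)) F) -
      (ind (Bad R) + ind (¬ (|(nv (fd R (d + 1)) none : ℝ) - p * M| ≤ δ * M ∧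
        |(nv (fd R (d + 1)) (some true) : ℝ) - (1 - p) / 2 * M| ≤ δ * M)))) =
      (1 - 2 * w * η) * (∑ R : Fin (d + 1) → PA V, Wt q (1 / 2) R * mn (rst (fd R (d + 1)) F)) -
      (∑ R : Fin (d + 1) → PA V, Wt q (1 / 2) R * ind (Bad R) +
        ∑ R : Fin (d + 1) → PA V, Wt q (1 / 2) R *
          ind (¬ (|(nv (fd R (d + 1)) none : ℝ) - p * M| ≤ δ * M ∧
        |(nv (fd R (d + 1)) (some true) : ℝ) - (1 - p) / 2 * M| ≤ δ * M))) := by
    rw [Finset.mul_sum, ← Finset.sum_add_distrib, ← Finset.sum_sub_distrib]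
    refine Finset.sum_congr rfl fun R _ => ?_
    ring
  rw [e, hmn] at hsum
  linarith


theorem bi_not (b : Bool) : bi (!b) = 1 - bi b := by
  cases b <;> simp [bi]

theorem mn_not {V : Type} [Fintype V] [DecidableEq V] (f : (V → Bool) → Bool) :
    mn (fun y => bi (!f y)) = 1 - mn (fun y => bi (f y)) := by
  unfold mn
  simp only [bi_not]
  rw [Finset.sum_sub_distrib, sub_div, Finset.sum_const, Finset.card_univ, nsmul_eq_mul, mul_one,
    Fintype.card_fun, Fintype.card_bool]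
  congr 1
  push_cast
  exact div_self (by positivity)

theorem ws_pos {V : Type} [Fintype V] [DecidableEq V] (W : ℕ) (hW : W ≤ Fintype.card V) :
    0 < (ws (fun _ : V => none) W).card := by
  obtain ⟨s, -, hs⟩ := Finset.exists_subset_card_eq (s := (univ : Finset V)) (n := W)
    (by rw [Finset.card_univ]; exact hW)
  refine Finset.card_pos.2 ⟨fun v => decide (v ∈ s), ?_⟩
  unfold ws
  simp only [Finset.mem_filter, Finset.mem_univ, true_and]
  refine ⟨fun v b hv => ?_, ?_⟩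
  · simp at hv
  · unfold nt
    rw [← hs]
    congr 1
    ext v
    simp

theorem wm_not {V : Type} [Fintype V] [DecidableEq V] (f : (V → Bool) → Bool) (W : ℕ)
    (hW : W ≤ Fintype.card V) :
    wm (fun _ => none) W (fun y => bi (!f y)) = 1 - wm (fun _ => none) W (fun y => bi (f y)) := by
  have h := ws_pos (V := V) W hW
  unfold wm
  simp only [bi_not]
  rw [Finset.sum_sub_distrib, sub_div, Finset.sum_const, nsmul_eq_mul, mul_one]
  congr 1
  exact div_self (by exact_mod_cast h.ne')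

theorem hw2 (hSWL : T_SWL) (hHOE : T_HOE) (hTRE : T_TRE) (hEXC : T_EXC) : T_HW2 := by
  intro V _ _ _ S d w W δ f hw hδ hf hWc hW
  obtain ⟨Bad, hBad, hGood⟩ := hSWL V S d w f hw hf
  have h1 := core hHOE hTRE hEXC V S d w W δ f hw hδ ⟨Bad, hBad, hGood⟩ hW
  have h2 := core hHOE hTRE hEXC V S d w W δ (fun y => !f y) hw hδ
    ⟨Bad, hBad, fun R hR => by
      obtain ⟨t, ht, hft⟩ := hGood R hR
      refine ⟨Pool.Agent.H48.OQ.FMG.ng t, ?_, fun y hy => ?_⟩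
      · rw [Pool.Agent.H48.OQ.FMG.ng_depth]; exact ht
      · rw [Pool.Agent.H48.OQ.FMG.ng_eval, hft y hy]⟩ hW
  rw [mn_not, wm_not f W hWc] at h2
  have hm := mn_01 (fun y => bi (f y)) (fun y => (bi_01 _).1) (fun y => (bi_01 _).2)
  obtain ⟨m, hmd⟩ : ∃ m, m = mn fun y => bi (f y) := ⟨_, rfl⟩
  obtain ⟨x, hxd⟩ : ∃ x, x = wm (fun _ => none) W fun y => bi (f y) := ⟨_, rfl⟩
  obtain ⟨e, he⟩ : ∃ e, e = (12 * w * δ + 4 * w ^ 2 / Fintype.card V) *
    (128 * (w : ℝ)) ^ (d + 1) := ⟨_, rfl⟩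
  obtain ⟨τ, hτ⟩ : ∃ τ, τ = ((S : ℝ) + 1) ^ (d + 1) / 2 ^ w +
    4 * Real.exp (-(Fintype.card V * δ ^ 2 / 4)) := ⟨_, rfl⟩
  have he0 : 0 ≤ e := by rw [he]; positivity
  rw [← hmd] at h1 h2 hm ⊢
  rw [← hxd] at h1 h2 ⊢
  rw [← he, ← hτ] at h1 h2 ⊢
  have h3 : e * m ≤ e := by nlinarith [hm.2]
  have h4 : 0 ≤ e * m := mul_nonneg he0 hm.1
  rw [abs_le]
  constructor
  · nlinarith
  · nlinarith

end Pool.Agent.H42.OX.HW2
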